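import Pool.Agent.Helper98.QR.StmtsA

/-!
# Row A06: structure of the map cut at the outer corners
-/

namespace QR

noncomputable section

namespace H41

open Equiv

/-! ## Trees -/

/-- the graph on the classes of two partitions of `D`, with an edge for every element of `D` -/
def bipG {D A C : Type} (a : D → A) (c : D → C) : SimpleGraph (A ⊕ C) :=
  SimpleGraph.fromEdgeSet (Set.range (fun d => s(Sum.inl (a d), Sum.inr (c d))))

theorem bip_adj {D A C : Type} (a : D → A) (c : D → C) (d : D) :
    (bipG a c).Adj (Sum.inl (a d)) (Sum.inr (c d)) := by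
  rw [bipG, SimpleGraph.fromEdgeSet_adj]
  exact ⟨⟨d, rfl⟩, by simp⟩

theorem bip_conn {D A C : Type} [Nonempty D] (a : D → A) (c : D → C)
    (ha : Function.Surjective a) (hc : Function.Surjective c)
    (hconn : ∀ x y : D, Relation.EqvGen (fun x y => a x = a y ∨ c x = c y) x y) :
    (bipG a c).Connected := by
  have hr : ∀ x y : D, (bipG a c).Reachable (Sum.inl (a x)) (Sum.inl (a y)) := by
    intro x y
    induction hconn x y with
    | rel x y h =>
      rcases h with h | h
      · rw [h]
      · refine (bip_adj a c x).reachable.trans ?_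
        rw [h]
        exact (bip_adj a c y).symm.reachable
    | refl x => exact SimpleGraph.Reachable.refl _
    | symm x y _ ih => exact ih.symm
    | trans x y z _ _ ih1 ih2 => exact ih1.trans ih2
  obtain ⟨d0⟩ := ‹Nonempty D›
  have hv : ∀ v : A ⊕ C, (bipG a c).Reachable (Sum.inl (a d0)) v := by
    intro v
    rcases v with v | v
    · obtain ⟨d, rfl⟩ := ha v
      exact hr d0 d
    · obtain ⟨d, rfl⟩ := hc v
      exact (hr d0 d).trans (bip_adj a c d).reachable
  have : Nonempty (A ⊕ C) := ⟨Sum.inl (a d0)⟩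
  exact ⟨fun u v => (hv u).symm.trans (hv v)⟩

theorem bip_card {D A C : Type} [Finite D] [Nonempty D] (a : D → A) (c : D → C)
    (ha : Function.Surjective a) (hc : Function.Surjective c)
    (hconn : ∀ x y : D, Relation.EqvGen (fun x y => a x = a y ∨ c x = c y) x y) :
    Nat.card A + Nat.card C ≤ Nat.card D + 1 ∧
    (Nat.card A + Nat.card C = Nat.card D + 1 → ∀ x y, a x = a y → c x = c y → x = y) := by
  classical
  have hfA : Finite A := Finite.of_surjective a ha
  have hfC : Finite C := Finite.of_surjective c hc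
  have h1 := (bip_conn a c ha hc hconn).card_vert_le_card_edgeSet_add_one
  rw [Nat.card_sum] at h1
  set e : D → Sym2 (A ⊕ C) := fun d => s(Sum.inl (a d), Sum.inr (c d)) with he
  have hE : (bipG a c).edgeSet ⊆ Set.range e := by
    rw [bipG, SimpleGraph.edgeSet_fromEdgeSet]
    exact Set.sdiff_subset
  have hfin : (Set.range e).Finite := Set.finite_range e
  have h2 : Nat.card (bipG a c).edgeSet ≤ Nat.card (Set.range e) :=
    Nat.card_mono hfin hE
  have h3 : Nat.card (Set.range e) ≤ Nat.card D :=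
    Finite.card_range_le e
  refine ⟨by omega, ?_⟩
  intro heq x y hx hy
  by_contra hne
  have h4 : Nat.card (Set.range e) < Nat.card D := by
    rcases lt_or_eq_of_le h3 with h | h
    · exact h
    · exfalso
      have hb : Function.Bijective (Set.rangeFactorization e) :=
        Set.rangeFactorization_surjective.bijective_of_nat_card_le h.ge
      apply hne
      apply hb.1
      apply Subtype.ext
      simp only [Set.rangeFactorization_coe, he, hx, hy]
  omega

/-! ## Cycles -/

theorem pow_j {D' D : Type} {σ' : Perm D'} {σ : Perm D} {j : D' → D}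
    (hj : ∀ d, j (σ' d) = σ (j d)) (n : ℕ) (d : D') : j ((σ' ^ n) d) = (σ ^ n) (j d) := by
  induction n with
  | zero => rfl
  | succ n ih => rw [pow_succ', pow_succ', Perm.mul_apply, Perm.mul_apply, hj, ih]

theorem inv_j {D' D : Type} {σ' : Perm D'} {σ : Perm D} {j : D' → D}
    (hj : ∀ d, j (σ' d) = σ (j d)) (d : D') : j (σ'⁻¹ d) = σ⁻¹ (j d) := by
  rw [Perm.eq_inv_iff_eq, ← hj]
  exact congrArg j (Equiv.apply_symm_apply σ' d)

theorem zpow_j {D' D : Type} {σ' : Perm D'} {σ : Perm D} {j : D' → D}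
    (hj : ∀ d, j (σ' d) = σ (j d)) (n : ℤ) (d : D') : j ((σ' ^ n) d) = (σ ^ n) (j d) := by
  obtain ⟨k, rfl | rfl⟩ := n.eq_nat_or_neg
  · rw [zpow_natCast, zpow_natCast, pow_j hj]
  · rw [zpow_neg, zpow_neg, zpow_natCast, zpow_natCast, ← inv_pow, ← inv_pow,
      pow_j (fun d => inv_j hj d)]

theorem same_j {D' D : Type} {σ' : Perm D'} {σ : Perm D} {j : D' → D}
    (hi : Function.Injective j)
    (hj : ∀ d, j (σ' d) = σ (j d)) (x y : D') : σ'.SameCycle x y ↔ σ.SameCycle (j x) (j y) := by
  constructor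
  · rintro ⟨n, rfl⟩
    exact ⟨n, (zpow_j hj n x).symm⟩
  · rintro ⟨n, h⟩
    refine ⟨n, hi ?_⟩
    rw [zpow_j hj, h]

/-- the cycle of an element -/
def cy {S : Type} (σ : Perm S) (x : S) : Cyc σ := Quotient.mk (Perm.SameCycle.setoid σ) x

theorem cy_eq {S : Type} {σ : Perm S} {x y : S} : cy σ x = cy σ y ↔ σ.SameCycle x y := by
  unfold cy
  rw [Quotient.eq]
  rfl

theorem cy_surj {S : Type} (σ : Perm S) : Function.Surjective (cy σ) := Quotient.mk_surjective

theorem card_cyc_fiber {D' D C : Type} {σ' : Perm D'} {σ : Perm D} {j : D' → D}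
    (hi : Function.Injective j) (hj : ∀ d, j (σ' d) = σ (j d)) (p : Cyc σ → C) (K : C)
    (hr : ∀ d, p (cy σ d) = K ↔ d ∈ Set.range j) :
    Nat.card (Cyc σ') = Nat.card {c : Cyc σ // p c = K} := by
  have h1 : ∀ x y : D', (Perm.SameCycle.setoid σ').r x y → cy σ (j x) = cy σ (j y) := by
    intro x y h
    exact cy_eq.2 ((same_j hi hj x y).1 h)
  let g : Cyc σ' → {c : Cyc σ // p c = K} :=
    fun c => ⟨Quotient.lift (fun x => cy σ (j x)) h1 c, by
      induction c using Quotient.inductionOn with
      | h x => exact (hr (j x)).2 ⟨x, rfl⟩⟩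
  refine Nat.card_congr (Equiv.ofBijective g ⟨?_, ?_⟩)
  · intro a b hab
    induction a using Quotient.inductionOn with
    | h x =>
    induction b using Quotient.inductionOn with
    | h y =>
      have h2 : cy σ (j x) = cy σ (j y) := congrArg Subtype.val hab
      exact Quotient.sound ((same_j hi hj x y).2 (cy_eq.1 h2))
  · rintro ⟨c, hc⟩
    obtain ⟨d, rfl⟩ := cy_surj σ c
    obtain ⟨x, rfl⟩ := (hr d).1 hc
    exact ⟨Quotient.mk _ x, rfl⟩

/-! ## Components -/

/-- the components of a map -/
abbrev Comp {D : Type} (m : RMap D) : Type := Quot (fun a b => b = m.rot a ∨ b = m.opp a)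

/-- the component of a dart -/
def cp {D : Type} (m : RMap D) (d : D) : Comp m := Quot.mk _ d

theorem cp_rot {D : Type} (m : RMap D) (d : D) : cp m (m.rot d) = cp m d := by
  have h : Quot.mk (fun a b => b = m.rot a ∨ b = m.opp a) d =
    Quot.mk (fun a b => b = m.rot a ∨ b = m.opp a) (m.rot d) := Quot.sound (Or.inl rfl)
  exact h.symm

theorem cp_opp {D : Type} (m : RMap D) (d : D) : cp m (m.opp d) = cp m d := by
  have h : Quot.mk (fun a b => b = m.rot a ∨ b = m.opp a) d =
    Quot.mk (fun a b => b = m.rot a ∨ b = m.opp a) (m.opp d) := Quot.sound (Or.inr rfl)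
  exact h.symm

theorem cp_surj {D : Type} (m : RMap D) : Function.Surjective (cp m) := Quot.mk_surjective

/-- a predicate which is invariant under `rot` and `opp` is constant on the components -/
theorem cp_pred {D : Type} (m : RMap D) (Q : D → Prop) (h1 : ∀ d, Q (m.rot d) ↔ Q d)
    (h2 : ∀ d, Q (m.opp d) ↔ Q d) {x y : D} (h : cp m x = cp m y) : Q x ↔ Q y := by
  have h3 : ∀ a b, (b = m.rot a ∨ b = m.opp a) → Q a = Q b := by
    rintro a b (rfl | rfl)
    · exact propext (h1 a).symm
    · exact propext (h2 a).symm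
  have h4 : ∀ d, Quot.lift Q h3 (cp m d) = Q d := fun d => rfl
  rw [← h4 x, ← h4 y, h]

theorem cp_face {D : Type} (m : RMap D) (d : D) : cp m (m.face d) = cp m d := by
  show cp m (m.rot (m.opp d)) = cp m d
  rw [cp_rot, cp_opp]

theorem cp_pow {D : Type} {m : RMap D} {σ : Perm D} (h : ∀ d, cp m (σ d) = cp m d) (n : ℤ) (d : D) :
    cp m ((σ ^ n) d) = cp m d := by
  have h0 : ∀ (k : ℕ) d, cp m ((σ ^ k) d) = cp m d := by
    intro k
    induction k with
    | zero => intro d; rfl
    | succ k ih => intro d; rw [pow_succ', Perm.mul_apply, h, ih]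
  obtain ⟨k, rfl | rfl⟩ := n.eq_nat_or_neg
  · rw [zpow_natCast]; exact h0 k d
  · have h5 := h0 k ((σ ^ (-(k : ℤ))) d)
    rw [← zpow_natCast, ← Perm.mul_apply, ← zpow_add, add_neg_cancel, zpow_zero] at h5
    exact h5.symm

theorem cp_same {D : Type} {m : RMap D} {σ : Perm D} (h : ∀ d, cp m (σ d) = cp m d) {x y : D}
    (hs : σ.SameCycle x y) : cp m x = cp m y := by
  obtain ⟨n, rfl⟩ := hs
  exact (cp_pow h n x).symm

/-- the component of a cycle -/
def pr {D : Type} {m : RMap D} {σ : Perm D} (h : ∀ d, cp m (σ d) = cp m d) : Cyc σ → Comp m :=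
  Quotient.lift (cp m) (fun _ _ hs => cp_same h hs)

theorem pr_cy {D : Type} {m : RMap D} {σ : Perm D} (h : ∀ d, cp m (σ d) = cp m d) (d : D) :
    pr h (cy σ d) = cp m d := rfl

/-- in a finite map the relation generated by the moves is symmetric -/
theorem reach_of_cp {D : Type} [Finite D] (m : RMap D) {x y : D} (h : cp m x = cp m y) :
    Relation.ReflTransGen (fun a b => b = m.rot a ∨ b = m.opp a) x y := by
  have hp : ∀ (k : ℕ) (d : D), Relation.ReflTransGen (fun a b => b = m.rot a ∨ b = m.opp a) d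
      ((m.rot ^ k) d) := by
    intro k
    induction k with
    | zero => intro d; exact Relation.ReflTransGen.refl
    | succ k ih =>
      intro d
      rw [pow_succ', Perm.mul_apply]
      exact (ih d).tail (Or.inl rfl)
  have h1 : ∀ d, Relation.ReflTransGen (fun a b => b = m.rot a ∨ b = m.opp a) x (m.rot d) ↔
      Relation.ReflTransGen (fun a b => b = m.rot a ∨ b = m.opp a) x d := by
    intro d
    constructor
    · intro h
      have h5 := hp (orderOf m.rot - 1) (m.rot d)
      have h6 : (m.rot ^ (orderOf m.rot - 1)) (m.rot d) = d := by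
        rw [← Perm.mul_apply, ← pow_succ, Nat.sub_add_cancel (orderOf_pos m.rot),
          pow_orderOf_eq_one]
        rfl
      rw [h6] at h5
      exact h.trans h5
    · intro h
      exact h.tail (Or.inl rfl)
  have h2 : ∀ d, Relation.ReflTransGen (fun a b => b = m.rot a ∨ b = m.opp a) x (m.opp d) ↔
      Relation.ReflTransGen (fun a b => b = m.rot a ∨ b = m.opp a) x d := by
    intro d
    constructor
    · intro h
      exact h.tail (Or.inr (m.opp_opp d).symm)
    · intro h
      exact h.tail (Or.inr rfl)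
  exact (cp_pred m _ h1 h2 h).1 Relation.ReflTransGen.refl

/-- the range of a connected piece is a component -/
theorem range_comp {D' D : Type} (m' : RMap D') (m : RMap D) (j : D' → D) (o' : D')
    (h1 : ∀ d, j (m'.rot d) = m.rot (j d)) (h2 : ∀ d, j (m'.opp d) = m.opp (j d)) (hc : m'.Conn)
    (d : D) : cp m d = cp m (j o') ↔ d ∈ Set.range j := by
  constructor
  · intro h
    refine (cp_pred m (fun d => d ∈ Set.range j) ?_ ?_ h).2 ⟨o', rfl⟩
    · intro d
      constructor
      · rintro ⟨x, hx⟩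
        refine ⟨m'.rot⁻¹ x, ?_⟩
        rw [inv_j h1, hx]
        exact Equiv.symm_apply_apply m.rot d
      · rintro ⟨x, rfl⟩
        exact ⟨m'.rot x, h1 x⟩
    · intro d
      constructor
      · rintro ⟨x, hx⟩
        refine ⟨m'.opp x, ?_⟩
        rw [h2, hx, m.opp_opp]
      · rintro ⟨x, rfl⟩
        exact ⟨m'.opp x, h2 x⟩
  · rintro ⟨x, rfl⟩
    have h := hc o' x
    induction h with
    | refl => rfl
    | tail _ hr ih =>
      rcases hr with rfl | rfl
      · rw [h1, cp_rot, ih]
      · rw [h2, cp_opp, ih]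

/-- the restriction of a map to a component -/
def resMap {D : Type} (m : RMap D) (K : Comp m) : RMap {d // cp m d = K} where
  rot := m.rot.subtypePerm (fun d => by rw [cp_rot])
  opp := m.opp.subtypePerm (fun d => by rw [cp_opp])
  opp_opp := by
    rintro ⟨d, hd⟩
    apply Subtype.ext
    simp only [Perm.subtypePerm_apply]
    exact m.opp_opp d
  opp_ne := by
    rintro ⟨d, hd⟩ h
    have h2 := congrArg Subtype.val h
    simp only [Perm.subtypePerm_apply] at h2
    exact m.opp_ne d h2

theorem resMap_rot {D : Type} (m : RMap D) (K : Comp m) (d : {d // cp m d = K}) :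
    ((resMap m K).rot d : D) = m.rot d := rfl

theorem resMap_opp {D : Type} (m : RMap D) (K : Comp m) (d : {d // cp m d = K}) :
    ((resMap m K).opp d : D) = m.opp d := rfl

theorem resMap_conn {D : Type} [Finite D] (m : RMap D) (K : Comp m) : (resMap m K).Conn := by
  rintro ⟨x, hx⟩ ⟨y, hy⟩
  have h := reach_of_cp m (hx.trans hy.symm)
  have key : ∀ z, Relation.ReflTransGen (fun a b => b = m.rot a ∨ b = m.opp a) x z →
      ∀ hz : cp m z = K, Relation.ReflTransGen
        (fun a b => b = (resMap m K).rot a ∨ b = (resMap m K).opp a) ⟨x, hx⟩ ⟨z, hz⟩ := by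
    intro z h
    induction h with
    | refl => intro hz; exact Relation.ReflTransGen.refl
    | tail _ hr ih =>
      rename_i b c _
      intro hz
      have hb : cp m b = K := by
        rcases hr with rfl | rfl
        · rwa [cp_rot] at hz
        · rwa [cp_opp] at hz
      refine (ih hb).tail ?_
      rcases hr with rfl | rfl
      · left; rfl
      · right; rfl
  exact key y h _

/-- Euler inequality for maps with several components, and the case of equality -/
theorem euler_gen (hA : ST_A01) {D : Type} [Finite D] (m : RMap D) :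
    2 * (Nat.card m.Vert + Nat.card m.Face) ≤ Nat.card D + 4 * Nat.card (Comp m) ∧
    (2 * (Nat.card m.Vert + Nat.card m.Face) = Nat.card D + 4 * Nat.card (Comp m) →
      ∀ (D' : Type) (m' : RMap D') (j : D' → D), Nonempty D' → Function.Injective j →
        (∀ d, j (m'.rot d) = m.rot (j d)) → (∀ d, j (m'.opp d) = m.opp (j d)) → m'.Conn →
        2 * (Nat.card m'.Vert + Nat.card m'.Face) = Nat.card D' + 4) := by
  classical
  have : Fintype (Comp m) := Fintype.ofFinite _
  have hface : ∀ (D' : Type) (m' : RMap D') (j : D' → D), 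
      (∀ d, j (m'.rot d) = m.rot (j d)) → (∀ d, j (m'.opp d) = m.opp (j d)) →
      ∀ d, j (m'.face d) = m.face (j d) := by
    intro D' m' j h1 h2 d
    show j (m'.rot (m'.opp d)) = m.rot (m.opp (j d))
    rw [h1, h2]
  have hV : Nat.card m.Vert = ∑ K : Comp m, Nat.card {c : m.Vert // pr (cp_rot m) c = K} := by
    rw [← Nat.card_sigma]
    exact (Nat.card_congr (Equiv.sigmaFiberEquiv (pr (cp_rot m)))).symm
  have hF : Nat.card m.Face = ∑ K : Comp m, Nat.card {c : m.Face // pr (cp_face m) c = K} := by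
    rw [← Nat.card_sigma]
    exact (Nat.card_congr (Equiv.sigmaFiberEquiv (pr (cp_face m)))).symm
  have hDc : Nat.card D = ∑ K : Comp m, Nat.card {d : D // cp m d = K} := by
    rw [← Nat.card_sigma]
    exact (Nat.card_congr (Equiv.sigmaFiberEquiv (cp m))).symm
  -- the inequality for a component
  have hK : ∀ K : Comp m, 2 * (Nat.card {c : m.Vert // pr (cp_rot m) c = K} +
      Nat.card {c : m.Face // pr (cp_face m) c = K}) ≤ Nat.card {d : D // cp m d = K} + 4 := by
    intro K
    obtain ⟨d0, hd0⟩ := cp_surj m K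
    have h1 := hA {d // cp m d = K} (resMap m K) ⟨⟨d0, hd0⟩⟩ (resMap_conn m K)
    have h2 : Nat.card (resMap m K).Vert = Nat.card {c : m.Vert // pr (cp_rot m) c = K} := by
      refine card_cyc_fiber (j := Subtype.val) Subtype.val_injective (resMap_rot m K) _ K ?_
      intro d
      rw [pr_cy]
      simp
    have h3 : Nat.card (resMap m K).Face = Nat.card {c : m.Face // pr (cp_face m) c = K} := by
      refine card_cyc_fiber (j := Subtype.val) Subtype.val_injective
        (hface _ _ _ (resMap_rot m K) (resMap_opp m K)) _ K ?_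
      intro d
      rw [pr_cy]
      simp
    rw [h2, h3] at h1
    exact h1
  have hsum : ∑ K : Comp m, (2 * (Nat.card {c : m.Vert // pr (cp_rot m) c = K} +
      Nat.card {c : m.Face // pr (cp_face m) c = K})) ≤
      ∑ K : Comp m, (Nat.card {d : D // cp m d = K} + 4) := Finset.sum_le_sum (fun K _ => hK K)
  have e1 : ∑ K : Comp m, (2 * (Nat.card {c : m.Vert // pr (cp_rot m) c = K} +
      Nat.card {c : m.Face // pr (cp_face m) c = K})) = 2 * (Nat.card m.Vert + Nat.card m.Face) := by
    rw [← Finset.mul_sum, Finset.sum_add_distrib, ← hV, ← hF]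
  have e2 : ∑ K : Comp m, (Nat.card {d : D // cp m d = K} + 4) =
      Nat.card D + 4 * Nat.card (Comp m) := by
    rw [Finset.sum_add_distrib, ← hDc, Finset.sum_const, Finset.card_univ,
      smul_eq_mul, mul_comm, Nat.card_eq_fintype_card (α := Comp m)]
  refine ⟨by rw [← e1, ← e2]; exact hsum, ?_⟩
  intro heq D' m' j hne hi h1 h2 hc
  obtain ⟨o'⟩ := hne
  rw [← e1, ← e2] at heq
  have h3 := (Finset.sum_eq_sum_iff_of_le (fun K _ => hK K)).1 heq (cp m (j o')) (Finset.mem_univ _)
  have hr := range_comp m' m j o' h1 h2 hc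
  rw [card_cyc_fiber hi h1 (pr (cp_rot m)) (cp m (j o')) (fun d => by rw [pr_cy]; exact hr d),
    card_cyc_fiber hi (hface _ _ _ h1 h2) (pr (cp_face m)) (cp m (j o'))
      (fun d => by rw [pr_cy]; exact hr d), h3]
  congr 1
  refine Nat.card_congr (Equiv.symm (Equiv.ofBijective
    (fun x : D' => (⟨j x, (hr (j x)).2 ⟨x, rfl⟩⟩ : {d : D // cp m d = cp m (j o')})) ⟨?_, ?_⟩))
  · intro a b hab
    exact hi (congrArg Subtype.val hab)
  · rintro ⟨d, hd⟩
    obtain ⟨x, rfl⟩ := (hr d).1 hd
    exact ⟨x, rfl⟩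

/-! ## Invariant sets -/

theorem pow_B {S : Type} {σ : Perm S} {B : Set S} (h : ∀ x, σ x ∈ B ↔ x ∈ B) (n : ℤ) (x : S) :
    (σ ^ n) x ∈ B ↔ x ∈ B := by
  have h0 : ∀ (k : ℕ) x, (σ ^ k) x ∈ B ↔ x ∈ B := by
    intro k
    induction k with
    | zero => intro x; rfl
    | succ k ih => intro x; rw [pow_succ', Perm.mul_apply, h, ih]
  obtain ⟨k, rfl | rfl⟩ := n.eq_nat_or_neg
  · rw [zpow_natCast]; exact h0 k x
  · have h5 := h0 k ((σ ^ (-(k : ℤ))) x)
    rw [← zpow_natCast, ← Perm.mul_apply, ← zpow_add, add_neg_cancel, zpow_zero] at h5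
    exact h5.symm

theorem same_B {S : Type} {σ : Perm S} {B : Set S} (h : ∀ x, σ x ∈ B ↔ x ∈ B) {x y : S}
    (hs : σ.SameCycle x y) : y ∈ B ↔ x ∈ B := by
  obtain ⟨n, rfl⟩ := hs
  exact pow_B h n x

/-- the cycle is contained in `B` -/
def inB {S : Type} (σ : Perm S) (B : Set S) (c : Cyc σ) : Prop := ∃ b ∈ B, cy σ b = c

theorem inB_cy {S : Type} {σ : Perm S} {B : Set S} (h : ∀ x, σ x ∈ B ↔ x ∈ B) (x : S) :
    inB σ B (cy σ x) ↔ x ∈ B := by
  constructor
  · rintro ⟨b, hb, he⟩
    exact (same_B h (cy_eq.1 he)).2 hb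
  · intro hx
    exact ⟨x, hx, rfl⟩

theorem card_split {S : Type} [Finite S] (p : S → Prop) :
    Nat.card S = Nat.card {x // p x} + Nat.card {x // ¬ p x} := by
  classical
  rw [← Nat.card_sum]
  exact Nat.card_congr (Equiv.sumCompl p).symm

/-- the cycles outside `B`, of two permutations which are equal outside `B` -/
theorem card_off {S : Type} (f g : Perm S) (B : Set S) (hf : ∀ x, f x ∈ B ↔ x ∈ B)
    (hg : ∀ x, g x ∈ B ↔ x ∈ B) (he : ∀ x, x ∉ B → f x = g x) :
    Nat.card {c : Cyc f // ¬ inB f B c} = Nat.card {c : Cyc g // ¬ inB g B c} := by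
  have h1 : Nat.card (Cyc (f.subtypePerm (p := fun x => x ∉ B) (fun x => not_congr (hf x)))) =
      Nat.card {c : Cyc f // inB f B c = False} := by
    refine card_cyc_fiber (j := Subtype.val) Subtype.val_injective (fun d => rfl) _ False ?_
    intro d
    rw [inB_cy hf]
    simp
  have h2 : Nat.card (Cyc (f.subtypePerm (p := fun x => x ∉ B) (fun x => not_congr (hf x)))) =
      Nat.card {c : Cyc g // inB g B c = False} := by
    refine card_cyc_fiber (j := Subtype.val) Subtype.val_injective (fun d => ?_) _ False ?_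
    · exact he d d.2
    intro d
    rw [inB_cy hg]
    simp
  have h3 : Nat.card {c : Cyc f // ¬ inB f B c} = Nat.card {c : Cyc f // inB f B c = False} :=
    Nat.card_congr (Equiv.subtypeEquivRight (fun c => by simp))
  have h4 : Nat.card {c : Cyc g // ¬ inB g B c} = Nat.card {c : Cyc g // inB g B c = False} :=
    Nat.card_congr (Equiv.subtypeEquivRight (fun c => by simp))
  rw [h3, h4, ← h1, h2]

theorem same_off {S : Type} {f g : Perm S} {B : Set S} (hf : ∀ x, f x ∈ B ↔ x ∈ B)
    (he : ∀ x, x ∉ B → f x = g x) {x y : S} (hx : x ∉ B) (h : f.SameCycle x y) :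
    g.SameCycle x y := by
  have hy : y ∉ B := fun hy => hx ((same_B hf h).1 hy)
  let σ' : Perm {x // x ∉ B} := f.subtypePerm (p := fun x => x ∉ B) (fun x => not_congr (hf x))
  have h1 := (same_j (σ' := σ') (σ := f) (j := Subtype.val) Subtype.val_injective
    (fun d => rfl) ⟨x, hx⟩ ⟨y, hy⟩).2 h
  exact (same_j (σ' := σ') (σ := g) (j := Subtype.val) Subtype.val_injective
    (fun d => he d d.2) ⟨x, hx⟩ ⟨y, hy⟩).1 h1

/-- the number of darts of a map with one special face and all other faces of degree `4` -/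
theorem card_quad {D : Type} [Finite D] (m : RMap D) (o : D)
    (h : ∀ d, ¬ m.face.SameCycle o d → m.fdeg d = 4) :
    Nat.card D = m.fdeg o + 4 * (Nat.card m.Face - 1) := by
  classical
  have : Fintype m.Face := Fintype.ofFinite _
  have hDc : Nat.card D = ∑ c : m.Face, Nat.card {d : D // cy m.face d = c} := by
    rw [← Nat.card_sigma]
    exact (Nat.card_congr (Equiv.sigmaFiberEquiv (cy m.face))).symm
  have hd : ∀ x, Nat.card {d : D // cy m.face d = cy m.face x} = m.fdeg x := by
    intro x
    refine Nat.card_congr (Equiv.subtypeEquivRight (fun d => ?_))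
    rw [eq_comm, cy_eq]
  rw [hDc, ← Finset.add_sum_erase _ _ (Finset.mem_univ (cy m.face o)), hd]
  congr 1
  rw [Finset.sum_congr rfl (g := fun _ => 4), Finset.sum_const, Finset.card_erase_of_mem
    (Finset.mem_univ _), Finset.card_univ, smul_eq_mul, mul_comm,
    Nat.card_eq_fintype_card (α := m.Face)]
  intro c hc
  obtain ⟨x, rfl⟩ := cy_surj _ c
  rw [hd]
  refine h x (fun hs => ?_)
  exact (Finset.mem_erase.1 hc).1 (cy_eq.2 hs).symm

end H41

open H41 Equiv in
theorem st_A06 (h1 : ST_A01) (h4 : ST_A04) : ST_A06 := by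
  classical
  intro D _ m o N P ρ hP hq hρ
  obtain ⟨hA, hcard, hsame⟩ := h4 D m.rot ρ (outer m o) hρ
  obtain ⟨B, hB⟩ : ∃ B, B = outer m o := ⟨_, rfl⟩
  obtain ⟨M, hM⟩ : ∃ M, M = cut m ρ := ⟨_, rfl⟩
  rw [← hB] at hρ hA hsame ⊢
  rw [← hM]
  have hMr : M.rot = ρ⁻¹ * m.rot := by rw [hM]; rfl
  have hMo : M.opp = m.opp := by rw [hM]; rfl
  rw [← hMr] at hA hcard hsame
  have hne : Nonempty D := hq.planar.1
  have hoB : o ∈ B := by rw [hB]; exact Perm.SameCycle.refl _ _
  have hρB : ∀ x, ρ x ∈ B ↔ x ∈ B := by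
    intro x
    constructor
    · intro h
      by_contra hx
      rw [hρ.1 x hx] at h
      exact hx h
    · intro h
      exact (hρ.2 x h).1
  have hρM : ∀ x, ρ (M.rot x) = m.rot x := by
    intro x
    rw [hMr]
    exact Equiv.apply_symm_apply ρ _
  have hfM : ∀ x, ρ (M.face x) = m.face x := by
    intro x
    show ρ (M.rot (M.opp x)) = m.rot (m.opp x)
    rw [hρM, hMo]
  have hfB : ∀ x, m.face x ∈ B ↔ x ∈ B := by
    intro x
    rw [hB]
    exact Perm.sameCycle_apply_right
  have hFB : ∀ x, M.face x ∈ B ↔ x ∈ B := by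
    intro x
    rw [← hρB, hfM, hfB]
  have hFf : ∀ x, x ∉ B → M.face x = m.face x := by
    intro x hx
    have h := hfM x
    rwa [hρ.1 _ (fun h' => hx ((hFB x).1 h'))] at h
  -- every component meets `B`
  have hmeet : ∀ K : Comp M, ∃ b ∈ B, cp M b = K := by
    intro K
    obtain ⟨d0, hd0⟩ := cp_surj M K
    by_contra hno
    have hno' : ∀ x, cp M x = K → x ∉ B := fun x hx hxB => hno ⟨x, hxB, hx⟩
    have hreach : ∀ z, Relation.ReflTransGen (fun a b => b = m.rot a ∨ b = m.opp a) d0 z →
        cp M z = K := by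
      intro z hz
      induction hz with
      | refl => exact hd0
      | tail _ hr ih =>
        rename_i b c _
        rcases hr with rfl | rfl
        · have h5 : cp M (M.rot b) = K := by rw [cp_rot]; exact ih
          have h6 := hρM b
          rw [hρ.1 _ (hno' _ h5)] at h6
          rw [← h6]; exact h5
        · rw [← hMo, cp_opp]; exact ih
    exact hno' o (hreach o (hq.planar.2.1 d0 o)) hoB
  -- cycles in `B`
  let g : {c : Cyc M.face // inB M.face B c} → Comp M := fun c => pr (cp_face M) c.1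
  have hg : Function.Surjective g := by
    intro K
    obtain ⟨b, hb, hbK⟩ := hmeet K
    exact ⟨⟨cy M.face b, b, hb, rfl⟩, hbK⟩
  have hle : Nat.card (Comp M) ≤ Nat.card {c : Cyc M.face // inB M.face B c} :=
    Nat.card_le_card_of_surjective g hg
  have hF1 := card_split (fun c : Cyc M.face => inB M.face B c)
  have hF2 := card_split (fun c : Cyc m.face => inB m.face B c)
  have hF3 := card_off M.face m.face B hFB hfB hFf
  have hF4 : Nat.card {c : Cyc m.face // inB m.face B c} = 1 := by
    rw [Nat.card_eq_one_iff_unique]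
    refine ⟨⟨?_⟩, ⟨⟨cy m.face o, o, hoB, rfl⟩⟩⟩
    have h : ∀ b ∈ B, cy m.face b = cy m.face o := by
      intro b hb
      rw [hB] at hb
      exact (cy_eq.2 hb).symm
    rintro ⟨c, b, hb, rfl⟩ ⟨c', b', hb', rfl⟩
    apply Subtype.ext
    show cy m.face b = cy m.face b'
    rw [h b hb, h b' hb']
  obtain ⟨hE1, hE2⟩ := euler_gen h1 M
  have hpl := hq.planar.2.2
  have hconn : ∀ x y : D, Relation.EqvGen (fun x y => cp M x = cp M y ∨ cy ρ x = cy ρ y) x y := by
    intro x y
    have h := hq.planar.2.1 x y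
    induction h with
    | refl => exact Relation.EqvGen.refl _
    | tail _ hr ih =>
      rename_i b c _
      refine Relation.EqvGen.trans _ _ _ ih ?_
      rcases hr with rfl | rfl
      · refine Relation.EqvGen.trans _ (M.rot b) _ (Relation.EqvGen.rel _ _ (Or.inl ?_))
          (Relation.EqvGen.rel _ _ (Or.inr ?_))
        · exact (cp_rot M b).symm
        · rw [cy_eq, ← hρM b]
          exact (Perm.SameCycle.refl ρ _).apply_right
      · refine Relation.EqvGen.rel _ _ (Or.inl ?_)
        rw [← hMo, cp_opp]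
  obtain ⟨ht1, ht2⟩ := bip_card (cp M) (cy ρ) (cp_surj M) (cy_surj ρ) hconn
  have hVm : Nat.card m.Vert = Nat.card (Cyc m.rot) := rfl
  have hVM : Nat.card M.Vert = Nat.card (Cyc M.rot) := rfl
  have hFm : Nat.card m.Face = Nat.card (Cyc m.face) := rfl
  have hFM : Nat.card M.Face = Nat.card (Cyc M.face) := rfl
  have hfirst : Nat.card (Comp M) + Nat.card (Cyc ρ) = Nat.card D + 1 := by omega
  refine ⟨hfirst, ?_⟩
  have htree : ∀ x y, cp M x = cp M y → ρ.SameCycle x y → x = y := by
    intro x y hx hy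
    exact ht2 hfirst x y hx (cy_eq.2 hy)
  have hginj : Function.Injective g :=
    (hg.bijective_of_nat_card_le (by omega)).1
  have huniq : ∀ b ∈ B, ∀ b' ∈ B, cp M b = cp M b' → M.face.SameCycle b b' := by
    intro b hb b' hb' h
    have h5 : g ⟨cy M.face b, b, hb, rfl⟩ = g ⟨cy M.face b', b', hb', rfl⟩ := h
    exact cy_eq.1 (congrArg Subtype.val (hginj h5))
  have hEeq : 2 * (Nat.card M.Vert + Nat.card M.Face) = Nat.card D + 4 * Nat.card (Comp M) := by
    omega
  intro D' _ m' j o' hi hj1 hj2 hc ho'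
  rw [← hMo] at hj2
  have hjf : ∀ d, j (m'.face d) = M.face (j d) := by
    intro d
    show j (m'.rot (m'.opp d)) = M.rot (M.opp (j d))
    rw [hj1, hj2]
  have hpl' := hE2 hEeq D' m' j ⟨o'⟩ hi hj1 hj2 hc
  have hr := range_comp m' M j o' hj1 hj2 hc
  have hcp : ∀ x y : D', cp M (j x) = cp M (j y) := by
    intro x y
    rw [(hr (j x)).2 ⟨x, rfl⟩, (hr (j y)).2 ⟨y, rfl⟩]
  have hout : ∀ d, d ∈ outer m' o' ↔ j d ∈ B := by
    intro d
    constructor
    · intro h
      exact (same_B hFB ((same_j hi hjf o' d).1 h)).2 ho'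
    · intro h
      exact (same_j hi hjf o' d).2 (huniq _ ho' _ h (hcp _ _))
  have hin : ∀ d, ¬ m'.face.SameCycle o' d → m'.fdeg d = 4 := by
    intro d hd
    have hdB : j d ∉ B := fun h => hd ((hout d).2 h)
    have h5 : m.fdeg (j d) = 4 := by
      apply hq.inner
      intro h
      apply hdB
      rw [hB]
      exact h
    rw [← h5]
    refine Nat.card_congr (Equiv.ofBijective
      (fun x : {d' // m'.face.SameCycle d d'} => (⟨j x.1,
        same_off hFB hFf hdB ((same_j hi hjf _ _).1 x.2)⟩ :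
          {d' : D // m.face.SameCycle (j d) d'})) ⟨?_, ?_⟩)
    · rintro ⟨a, ha⟩ ⟨b, hb⟩ hab
      exact Subtype.ext (hi (congrArg Subtype.val hab))
    · rintro ⟨y, hy⟩
      have hy2 := same_off hfB (fun x hx => (hFf x hx).symm) hdB hy
      have hy3 := cp_same (cp_face M) hy2
      obtain ⟨x, rfl⟩ := (hr y).1 (by rw [← hy3]; exact hcp _ _)
      exact ⟨⟨x, (same_j hi hjf _ _).2 hy2⟩, rfl⟩
  have hcq := card_quad m' o' hin
  have hl1 : 1 ≤ m'.fdeg o' := by
    have : Nonempty {d' // m'.face.SameCycle o' d'} := ⟨⟨o', Perm.SameCycle.refl _ _⟩⟩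
    exact Nat.card_pos
  have hl2 : m'.fdeg o' ≤ 2 * P := by
    rw [← hq.outer]
    refine Nat.card_le_card_of_injective
      (fun x : {d' // m'.face.SameCycle o' d'} => (⟨j x.1, by
        have h := (hout x.1).1 x.2
        rw [hB] at h
        exact h⟩ : {d' : D // m.face.SameCycle o d'})) ?_
    rintro ⟨a, ha⟩ ⟨b, hb⟩ hab
    exact Subtype.ext (hi (congrArg Subtype.val hab))
  have hs1 := card_split (fun d' => m'.face.SameCycle o' d')
  have hs2 := card_split (fun d' => m.face.SameCycle o d')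
  have hs3 : Nat.card {d' // ¬ m'.face.SameCycle o' d'} ≤
      Nat.card {d' // ¬ m.face.SameCycle o d'} := by
    refine Nat.card_le_card_of_injective
      (fun x : {d' // ¬ m'.face.SameCycle o' d'} => (⟨j x.1, by
        intro h
        apply x.2
        apply (hout x.1).2
        rw [hB]
        exact h⟩ : {d' : D // ¬ m.face.SameCycle o d'})) ?_
    rintro ⟨a, ha⟩ ⟨b, hb⟩ hab
    exact Subtype.ext (hi (congrArg Subtype.val hab))
  have ho1 : Nat.card {d' // m.face.SameCycle o d'} = 2 * P := hq.outer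
  have ho2 : Nat.card {d' // m'.face.SameCycle o' d'} = m'.fdeg o' := rfl
  have hcD := hq.card
  refine ⟨⟨Nat.card m'.Face - 1, m'.fdeg o' / 2, by omega, by omega, by omega, ?_⟩, ?_, hout, ?_⟩
  · exact ⟨⟨⟨o'⟩, hc, hpl'⟩, by omega, hin, by omega⟩
  · intro d d' hd hd' ht
    have h5 : m'.rot.SameCycle d d' := Quotient.exact ht
    exact hi (hA _ ((hout d).1 hd) _ ((hout d').1 hd') ((same_j hi hj1 _ _).1 h5))
  · intro x y ht
    have h5 : m.rot.SameCycle (j x) (j y) := Quotient.exact ht
    apply Quotient.sound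
    show m'.rot.SameCycle x y
    rw [same_j hi hj1]
    rcases (hsame _ _).1 h5 with h6 | ⟨b, hb, b', hb', h6, h7, h8⟩
    · exact h6
    · have h9 : b = b' := by
        apply htree _ _ _ h7
        rw [← cp_same (cp_rot M) h6, cp_same (cp_rot M) h8]
        exact hcp _ _
      rw [← h9] at h8
      exact h6.trans h8

end

end QR
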