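import Pool.Agent.Helper98.QR.StmtsE

/-!
# Row E18: the frequencies in the disjoint union
-/

namespace QR

noncomputable section

open Filter Topology MeasureTheory

namespace H41

/-- rotation of the root on the finite maps with a simple boundary -/
def rotE (h14 : ST_E14) (n p : ℕ) (hp : 2 ≤ p) (i : ℤ) :
    {x // x ∈ SQ n p} ≃ {x // x ∈ SQ n p} where
  toFun x := ⟨(x.1.1, (x.1.1.face ^ i) x.1.2), ((h14 n p hp i).1 x.1).1 x.2⟩
  invFun x := ⟨(x.1.1, (x.1.1.face ^ (-i)) x.1.2), ((h14 n p hp (-i)).1 x.1).1 x.2⟩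
  left_inv x := by
    apply Subtype.ext
    apply Prod.ext
    · rfl
    · show (x.1.1.face ^ (-i)) ((x.1.1.face ^ i) x.1.2) = x.1.2
      rw [← Equiv.Perm.mul_apply, ← zpow_add, neg_add_cancel, zpow_zero]
      rfl
  right_inv x := by
    apply Subtype.ext
    apply Prod.ext
    · rfl
    · show (x.1.1.face ^ i) ((x.1.1.face ^ (-i)) x.1.2) = x.1.2
      rw [← Equiv.Perm.mul_apply, ← zpow_add, add_neg_cancel, zpow_zero]
      rfl

end H41

open H41 Classical in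
theorem st_E18 (h0 : ST_E00) (h5 : ST_E05) (h12 : ST_E12) (h14 : ST_E14) : ST_E18 := by
  intro n p hn hp hne S hS
  have hfR : Finite (RMap (Fin (4 * n + 2 * p))) := (h0 (Fin (4 * n + 2 * p))).1
  have hfV : ∀ m : RMap (Fin (4 * n + 2 * p)), Finite m.Vert := (h0 (Fin (4 * n + 2 * p))).2
  have hfS : Finite {x // x ∈ SQ n p} := inferInstance
  have hFS : Fintype {x // x ∈ SQ n p} := Fintype.ofFinite _
  let bb : {x // x ∈ SQ n p} × {x // x ∈ SQ n p} → ℤ → UV n p :=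
    fun z i => ⟨z, Sum.inl ((z.1.1.1.bg z.1.1.2).b i)⟩
  have hbb : ∀ z i j, bb z i = bb z j ↔ (2 * (p : ℤ)) ∣ i - j := by
    intro z i j
    rw [← (h5 n p hp z.1.1 z.1.2).2.1 i j]
    constructor
    · intro h
      have h2 := (Sigma.mk.inj h).2
      exact Sum.inl_injective (eq_of_heq h2)
    · intro h
      show (⟨z, Sum.inl ((z.1.1.1.bg z.1.1.2).b i)⟩ : UV n p) =
        ⟨z, Sum.inl ((z.1.1.1.bg z.1.1.2).b j)⟩
      rw [h]
  let Φ : ({x // x ∈ SQ n p} × {x // x ∈ SQ n p}) × Fin (2 * p) → UV n p :=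
    fun q => bb q.1 (q.2 : ℕ)
  have hΦi : Function.Injective Φ := by
    rintro ⟨z, i⟩ ⟨z', j⟩ h
    have h1 : z = z' := congrArg Sigma.fst h
    subst h1
    have h2 : (2 * (p : ℤ)) ∣ ((i : ℕ) : ℤ) - ((j : ℕ) : ℤ) := (hbb z _ _).1 h
    have h3 := i.2
    have h4 := j.2
    have h6 : (i : ℕ) = (j : ℕ) := by
      obtain ⟨c, hc⟩ := h2
      have h7 : c = 0 := by
        rcases lt_trichotomy c 0 with h | h | h
        · exfalso
          have : (2 * (p : ℤ)) * c ≤ - (2 * (p : ℤ)) := by nlinarith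
          omega
        · exact h
        · exfalso
          have : (2 * (p : ℤ)) ≤ (2 * (p : ℤ)) * c := by nlinarith
          omega
      rw [h7, mul_zero] at hc
      omega
    rw [Fin.ext h6]
  have hSm : S = Finset.univ.map ⟨Φ, hΦi⟩ := by
    apply Finset.ext
    intro v
    rw [hS, Finset.mem_map]
    constructor
    · rintro ⟨i, hi⟩
      have hp0 : (0 : ℤ) < 2 * p := by omega
      have h1 := Int.emod_nonneg i hp0.ne'
      have h2 := Int.emod_lt_of_pos i hp0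
      refine ⟨(v.1, ⟨(i % (2 * p)).toNat, by omega⟩), Finset.mem_univ _, ?_⟩
      show bb v.1 (((i % (2 * p)).toNat : ℕ) : ℤ) = v
      rw [Int.toNat_of_nonneg h1]
      have h3 : bb v.1 (i % (2 * p)) = bb v.1 i := by
        rw [hbb]
        rw [Int.emod_def]
        exact ⟨-(i / (2 * p)), by ring⟩
      rw [h3]
      obtain ⟨z, w⟩ := v
      show (⟨z, Sum.inl ((z.1.1.1.bg z.1.1.2).b i)⟩ : UV n p) = ⟨z, w⟩
      have hi' : w = Sum.inl ((z.1.1.1.bg z.1.1.2).b i) := hi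
      rw [hi']
    · rintro ⟨⟨z, i⟩, _, rfl⟩
      exact ⟨_, rfl⟩
  have hcS : S.card = (Nat.card {x // x ∈ SQ n p}) ^ 2 * (2 * p) := by
    rw [hSm, Finset.card_map, Finset.card_univ, Fintype.card_prod, Fintype.card_prod,
      Fintype.card_fin, Nat.card_eq_fintype_card, sq]
  refine ⟨hcS, ?_⟩
  intro r N F o
  set P : {x // x ∈ SQ n p} × {x // x ∈ SQ n p} → Prop := fun z =>
    SPR.BallIso r (gl z.1.1.1 z.1.1.2 z.2.1.1 z.2.1.2) (Sum.inl ((z.1.1.1.bg z.1.1.2).b 0)) F o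
    with hP
  have hQ : ∀ (z : {x // x ∈ SQ n p} × {x // x ∈ SQ n p}) (i : ℤ),
      SPR.BallIso r (Uc n p) (bb z i) F o ↔
        P ((rotE h14 n p hp i) z.1, (rotE h14 n p hp (-i)) z.2) := by
    intro z i
    have h1 := (h12 ({x // x ∈ SQ n p} × {x // x ∈ SQ n p})
      (fun z => z.1.1.1.Vert ⊕ z.2.1.1.Vert)
      (fun z => gl z.1.1.1 z.1.1.2 z.2.1.1 z.2.1.2)).2.2.2.2 r z
      (Sum.inl ((z.1.1.1.bg z.1.1.2).b i)) (Fin N) F o
    refine h1.trans ?_
    have h2 := (h14 n p hp i).2.2 z.1.1 z.1.2 z.2.1 z.2.2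
    have h3 := (h14 n p hp i).2.1 z.1.1 z.1.2 0
    rw [zero_add] at h3
    rw [← h3, ← h2]
    exact Iff.rfl
  have hcard : (S.filter (fun w => SPR.BallIso r (Uc n p) w F o)).card =
      2 * p * (Finset.univ.filter P).card := by
    rw [hSm, Finset.filter_map, Finset.card_map]
    rw [Finset.card_filter]
    rw [Fintype.sum_prod_type_right]
    have h1 : ∀ i : Fin (2 * p), ∑ z : {x // x ∈ SQ n p} × {x // x ∈ SQ n p},
        (if ((fun w => SPR.BallIso r (Uc n p) w F o) ∘ (⟨Φ, hΦi⟩ :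
          ({x // x ∈ SQ n p} × {x // x ∈ SQ n p}) × Fin (2 * p) ↪ UV n p)) (z, i) then 1 else 0) =
        (Finset.univ.filter P).card := by
      intro i
      rw [Finset.card_filter]
      rw [← Equiv.sum_comp (Equiv.prodCongr (rotE h14 n p hp (i : ℕ)) (rotE h14 n p hp (-(i : ℕ))))
        (fun z => if P z then 1 else 0)]
      refine Finset.sum_congr rfl (fun z _ => ?_)
      exact if_congr (hQ z (i : ℕ)) rfl rfl
    rw [Finset.sum_congr rfl (fun i _ => h1 i), Finset.sum_const, Finset.card_univ,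
      Fintype.card_fin, smul_eq_mul]
  have hpr : Nat.card {z : (RMap (Fin (4 * n + 2 * p)) × Fin (4 * n + 2 * p)) ×
      (RMap (Fin (4 * n + 2 * p)) × Fin (4 * n + 2 * p)) //
      z.1 ∈ SQ n p ∧ z.2 ∈ SQ n p ∧ SPR.BallIso r (gl z.1.1 z.1.2 z.2.1 z.2.2)
        (Sum.inl ((z.1.1.bg z.1.2).b 0)) F o} = (Finset.univ.filter P).card := by
    rw [← Fintype.card_subtype, ← Nat.card_eq_fintype_card]
    refine Nat.card_congr ⟨fun z => ⟨(⟨z.1.1, z.2.1⟩, ⟨z.1.2, z.2.2.1⟩), z.2.2.2⟩,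
      fun z => ⟨(z.1.1.1, z.1.2.1), z.1.1.2, z.1.2.2, z.2⟩, fun z => rfl, fun z => rfl⟩
  have hk : (0 : ℝ) < (Nat.card {x // x ∈ SQ n p} : ℝ) := by
    have : Nonempty {x // x ∈ SQ n p} := hne.to_subtype
    exact_mod_cast Nat.card_pos
  have hp' : (0 : ℝ) < (p : ℝ) := by
    have : 0 < p := by omega
    exact_mod_cast this
  rw [prob2, hpr, hcard, hcS]
  push_cast
  field_simp

end

end QR
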